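import Pool.Agent.H21.Cf3

set_option autoImplicit false
open Complex Filter Topology OnePoint Pool.Agent.H21.Cf

namespace Pool.Agent.Results.MP_e522d8_an.TypeA

open Classical in
/-- the map `w ↦ a / (1 + w)` on the Riemann sphere (constant `0` when `a = 0`) -/
noncomputable def s (a : ℂ) (w : OnePoint ℂ) : OnePoint ℂ :=
  if a = 0 then ((0 : ℂ) : OnePoint ℂ) else w.elim ((0 : ℂ) : OnePoint ℂ) fun z =>
    if 1 + z = 0 then ∞ else ((a / (1 + z) : ℂ) : OnePoint ℂ)

/-- the composition `s (a 0) ∘ ⋯ ∘ s (a (n - 1))` -/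
noncomputable def app (a : ℕ → ℂ) : ℕ → OnePoint ℂ → OnePoint ℂ
  | 0, t => t
  | n + 1, t => app a n (s (a n) t)

lemma one_le (n : ℕ) : 1 ≤ ‖1 + be 30 n‖ := by
  refine le_trans ?_ (re_le_norm _)
  rw [add_re, be_re, one_re]
  linarith [pow_pos (r_pos n) 4]

lemma mid (n : ℕ) {v : ℂ} (h : Cusp v) :
    Mid (v - be 30 n * (1 - v)) ∧ ‖v - be 30 n * (1 - v)‖ ≤ 5 := by
  have h0 := r_pos n
  have h5 := r_le n
  have r4 : r n ^ 4 ≤ 1 / 625 := by
    calc r n ^ 4 ≤ (1 / 5) ^ 4 := by gcongr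
      _ = 1 / 625 := by norm_num
  obtain ⟨b1, b2⟩ := h.bd
  have i0 := h.1
  have p4 : 0 < r n ^ 4 := by positivity
  have p5 : 0 < r n ^ 5 := by positivity
  have e1 : (v - be 30 n * (1 - v)).re = v.re - r n ^ 4 * (1 - v.re) - 30 * r n ^ 5 * v.im := by
    rw [sub_re, mul_re, be_re, be_im]; simp; ring
  have e2 : (v - be 30 n * (1 - v)).im = v.im + r n ^ 4 * v.im - 30 * r n ^ 5 * (1 - v.re) := by
    rw [sub_im, mul_im, be_re, be_im]; simp; ring
  have g1 : 0 ≤ r n ^ 5 * -v.im := mul_nonneg p5.le (by linarith)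
  have g2 : 0 ≤ r n ^ 4 * -v.im := mul_nonneg p4.le (by linarith)
  have g3 : 0 ≤ r n ^ 5 * (1 - v.re) := mul_nonneg p5.le (by linarith)
  constructor
  · rcases le_or_gt 0 (v - be 30 n * (1 - v)).re with hc | hc
    · refine ⟨by rw [e2]; linarith, ?_⟩
      nlinarith [mul_nonneg hc (normSq_nonneg (v - be 30 n * (1 - v))),
        sq_nonneg (v - be 30 n * (1 - v)).im]
    have b3 : -1 ≤ v.re := by
      by_contra hd
      push Not at hd
      have h2 := h.2
      have h3 : normSq v = v.re ^ 2 + v.im ^ 2 := by rw [normSq_apply]; ring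
      have h4 : normSq v * 1 ≤ normSq v * (normSq v - v.re) :=
        mul_le_mul_of_nonneg_left (by linarith [normSq_nonneg v]) (normSq_nonneg v)
      nlinarith
    have g4 : r n ^ 4 * (1 - v.re) ≤ r n ^ 4 * 2 := by gcongr; linarith
    rw [e1] at hc
    have g5 : r n ^ 5 * (9 / 10) ≤ r n ^ 5 * (1 - v.re) := by gcongr; linarith
    refine h.mid (r := 5 / 4 * r n) (by positivity) (by linarith) ?_ ?_
    · rw [e1, mul_pow]; linarith
    · rw [e2, mul_pow]; linarith
  · have k1 := be_norm (C := 30) (by norm_num) (by norm_num) n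
    have k2 := norm_sub_le 1 v
    rw [norm_one] at k2
    have k3 : ‖be 30 n‖ * ‖1 - v‖ ≤ 1 * 3 := by gcongr <;> linarith
    have k4 := norm_sub_le v (be 30 n * (1 - v))
    rw [norm_mul] at k4
    linarith

lemma step (n : ℕ) {w : ℂ} (h : Mid w) : Mid (1 - (1 + be 30 n) / (1 + w)) ∧
    ‖1 - (1 + be 30 n) / (1 + w)‖ ≤ 5 ∧ s (-(1 + be 30 n) / 4) (-(1 - w) / 2 : ℂ)
      = (-(1 - (1 - (1 + be 30 n) / (1 + w))) / 2 : ℂ) := by
  have h1 := h.ne
  have h2 : 1 + be 30 n ≠ 0 := norm_pos_iff.1 (by linarith [one_le n])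
  have e : 1 - (1 + be 30 n) / (1 + w) = w / (1 + w) - be 30 n * (1 - w / (1 + w)) := by
    field_simp
    ring
  have e' : 1 + -(1 - w) / 2 = (1 + w) / 2 := by ring
  refine ⟨e ▸ (mid n h.inv).1, e ▸ (mid n h.inv).2, ?_⟩
  rw [s, if_neg (div_ne_zero (neg_ne_zero.2 h2) (by norm_num)), elim_some, e',
    if_neg (div_ne_zero h1 two_ne_zero)]
  congr 1
  field_simp
  ring

lemma mid_one : Mid 1 := by simp [Mid]

/-- There is a set `E` of complex numbers such that all finite continued fractions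
`a₀/(1 + a₁/(1 + ⋯))` with elements in `E` have finite values in a fixed disc, while some infinite
such continued fraction with elements in `E` does not converge to a finite limit. -/
theorem result : ∃ E : Set ℂ,
    (∃ M : ℝ, ∀ (a : ℕ → ℂ) (n : ℕ), (∀ k < n, a k ∈ E) →
      ∃ z : ℂ, app a n (0 : ℂ) = z ∧ ‖z‖ ≤ M) ∧
    ¬∀ a : ℕ → ℂ, (∀ k, a k ∈ E) →
      ∃ L : ℂ, Tendsto (fun n => app a n (0 : ℂ)) atTop (𝓝 (L : OnePoint ℂ)) := by
  refine ⟨Set.range fun n => -(1 + be 30 n) / 4, ⟨3, fun b n hb => ?_⟩, fun h => ?_⟩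
  · have key : ∀ n, (∀ k < n, b k ∈ Set.range fun n => -(1 + be 30 n) / 4) → ∀ w, Mid w →
        ‖w‖ ≤ 5 → ∃ w', ‖w'‖ ≤ 5 ∧ app b n (-(1 - w) / 2 : ℂ) = (-(1 - w') / 2 : ℂ) := by
      intro n
      induction n with
      | zero => exact fun _ w _ hw => ⟨w, hw, rfl⟩
      | succ n ih =>
        intro hb w hw _
        obtain ⟨m, hm⟩ := hb n (by omega)
        rw [app, ← hm, (step m hw).2.2]
        exact ih (fun k hk => hb k (by omega)) _ (step m hw).1 (step m hw).2.1
    obtain ⟨w, h1, h2⟩ := key n hb 1 mid_one (by simp)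
    rw [sub_self, neg_zero, zero_div] at h2
    refine ⟨_, h2, ?_⟩
    rw [norm_div, norm_neg, Complex.norm_two]
    have := norm_sub_le 1 w
    rw [norm_one] at this
    linarith
  obtain ⟨L, hL⟩ := h (fun n => -(1 + be 30 n) / 4) fun k => ⟨k, rfl⟩
  set P := sol (fun _ => 2) (fun n => 1 + be 30 n) 1 0 with hP
  set R := sol (fun _ => 2) (fun n => 1 + be 30 n) 0 2 with hR
  have hP2 : ∀ n, P (n + 2) = 2 * P (n + 1) - (1 + be 30 n) * P n := fun n => rfl
  have hR2 : ∀ n, R (n + 2) = 2 * R (n + 1) - (1 + be 30 n) * R n := fun n => rfl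
  have key : ∀ n w, Mid w → R (n + 1) - R n * (1 - w) ≠ 0 ∧
      app (fun n => -(1 + be 30 n) / 4) n (-(1 - w) / 2 : ℂ)
        = ((P (n + 1) - P n * (1 - w)) / (R (n + 1) - R n * (1 - w)) : ℂ) := by
    intro n
    induction n with
    | zero => intro w _; simp [hP, hR, sol, app]
    | succ n ih =>
      intro w hw
      obtain ⟨h2, -, h3⟩ := step n hw
      have h1 := hw.ne
      obtain ⟨h4, h5⟩ := ih _ h2
      have e : ∀ x y : ℂ, 2 * x - (1 + be 30 n) * y - x * (1 - w) = (1 + w) *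
          (x - y * (1 - (1 - (1 + be 30 n) / (1 + w)))) := fun x y => by
        field_simp
        ring
      rw [app, h3, h5, hP2, hR2, e, e, mul_div_mul_left _ _ h1]
      exact ⟨mul_ne_zero h1 h4, rfl⟩
  have k1 : ∀ n, R (n + 1) ≠ 0 := fun n => by simpa using (key n 1 mid_one).1
  have k2 : ∀ n, app (fun n => -(1 + be 30 n) / 4) n (0 : ℂ) = (P (n + 1) / R (n + 1) : ℂ) :=
    fun n => by simpa using (key n 1 mid_one).2
  simp only [k2] at hL
  refine nolim P R (fun _ => 2) (fun n => 1 + be 30 n) (C := 30) (by norm_num) hP2 hR2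
    one_le (by simp [hP, hR, sol]) k1 (fun n x y => ?_) (fun n x y => ?_) L
    (isOpenEmbedding_coe.isInducing.tendsto_nhds_iff.2 hL)
  · rw [show 2 * x - (1 + be 30 n) * y - 2 * x + y + (r n ^ 4 : ℝ) * x
      = ((r n ^ 4 : ℝ) * x - be 30 n * x) + be 30 n * (x - y) by ring]
    refine (norm_add_le _ _).trans ?_
    rw [be_sub (by norm_num), norm_mul]
    have h0 := r_pos n
    have h1 : r n ^ 4 ≤ r n ^ 3 * 1 := by rw [pow_succ]; gcongr; linarith [r_le n]
    have h2 : ‖be 30 n‖ * ‖x - y‖ ≤ 30 * r n ^ 3 * ‖x - y‖ := by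
      gcongr
      linarith [be_norm (C := 30) (by norm_num) (by norm_num) n, pow_pos h0 3]
    linarith
  · rw [show 2 * x - (1 + be 30 n) * y - 2 * x + y = -(be 30 n * y) by ring, norm_neg, norm_mul]
    have := r_pos n
    exact mul_le_mul (be_norm (by norm_num) (by norm_num) n) (by linarith [norm_nonneg x])
      (norm_nonneg _) (by positivity)

end Pool.Agent.Results.MP_e522d8_an.TypeA
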