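import Pool.Agent.H21.Cf3

set_option autoImplicit false
open Complex Filter Topology OnePoint Pool.Agent.H21.Cf

namespace Pool.Agent.Results.MP_e522d8_an.TypeB

open Classical in
/-- the map `w ↦ 1 / (b + w)` on the Riemann sphere -/
noncomputable def s (b : ℂ) (w : OnePoint ℂ) : OnePoint ℂ :=
  w.elim ((0 : ℂ) : OnePoint ℂ) fun z =>
    if b + z = 0 then ∞ else ((1 / (b + z) : ℂ) : OnePoint ℂ)

/-- the composition `s (b 0) ∘ ⋯ ∘ s (b (n - 1))` -/
noncomputable def app (b : ℕ → ℂ) : ℕ → OnePoint ℂ → OnePoint ℂ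
  | 0, t => t
  | n + 1, t => app b n (s (b n) t)

lemma step (n : ℕ) {w : ℂ} (h : Cusp w) : 1 + (w - be 6 n) ≠ 0 ∧
    Cusp ((w - be 6 n) / (1 + (w - be 6 n))) ∧
    s (I * (2 - be 6 n)) (-I * (1 - w) : ℂ)
      = (-I * (1 - (w - be 6 n) / (1 + (w - be 6 n))) : ℂ) := by
  have hm : Mid (w - be 6 n) := h.mid (r_pos n) ((r_le n).trans (by norm_num))
    (by rw [sub_re, be_re]) (by rw [sub_im, be_im])
  have e : I * (2 - be 6 n) + -I * (1 - w) = I * (1 + (w - be 6 n)) := by ring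
  refine ⟨hm.ne, hm.inv, ?_⟩
  rw [s, elim_some, e, if_neg (mul_ne_zero I_ne_zero hm.ne)]
  congr 1
  have := hm.ne
  generalize w - be 6 n = p at *
  field_simp
  ring_nf
  simp

lemma inv_one : Cusp 1 := by simp [Cusp]

/-- There is a set `E` of complex numbers such that all finite continued fractions
`1/(b₀ + 1/(b₁ + ⋯))` with elements in `E` have finite values in a fixed disc, while some infinite
such continued fraction with elements in `E` does not converge to a finite limit. -/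
theorem result : ∃ E : Set ℂ,
    (∃ M : ℝ, ∀ (b : ℕ → ℂ) (n : ℕ), (∀ k < n, b k ∈ E) →
      ∃ z : ℂ, app b n (0 : ℂ) = z ∧ ‖z‖ ≤ M) ∧
    ¬∀ b : ℕ → ℂ, (∀ k, b k ∈ E) →
      ∃ L : ℂ, Tendsto (fun n => app b n (0 : ℂ)) atTop (𝓝 (L : OnePoint ℂ)) := by
  refine ⟨Set.range fun n => I * (2 - be 6 n), ⟨3, fun b n hb => ?_⟩, fun h => ?_⟩
  · have key : ∀ n, (∀ k < n, b k ∈ Set.range fun n => I * (2 - be 6 n)) → ∀ w, Cusp w →
        ∃ w', Cusp w' ∧ app b n (-I * (1 - w) : ℂ) = (-I * (1 - w') : ℂ) := by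
      intro n
      induction n with
      | zero => exact fun _ w hw => ⟨w, hw, rfl⟩
      | succ n ih =>
        intro hb w hw
        obtain ⟨m, hm⟩ := hb n (by omega)
        rw [app, ← hm, (step m hw).2.2]
        exact ih (fun k hk => hb k (by omega)) _ (step m hw).2.1
    obtain ⟨w, h1, h2⟩ := key n hb 1 inv_one
    rw [sub_self, mul_zero] at h2
    refine ⟨_, h2, ?_⟩
    rw [norm_mul, norm_neg, norm_I, one_mul]
    have := norm_sub_le 1 w
    rw [norm_one] at this
    linarith [h1.bd.1]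
  obtain ⟨L, hL⟩ := h (fun n => I * (2 - be 6 n)) fun k => ⟨k, rfl⟩
  set P := sol (fun n => 2 - be 6 n) (fun _ => 1) I 0 with hP
  set R := sol (fun n => 2 - be 6 n) (fun _ => 1) 0 1 with hR
  have hP2 : ∀ n, P (n + 2) = (2 - be 6 n) * P (n + 1) - 1 * P n := fun n => rfl
  have hR2 : ∀ n, R (n + 2) = (2 - be 6 n) * R (n + 1) - 1 * R n := fun n => rfl
  have key : ∀ n w, Cusp w → R (n + 1) - R n * (1 - w) ≠ 0 ∧
      app (fun n => I * (2 - be 6 n)) n (-I * (1 - w) : ℂ)
        = ((P (n + 1) - P n * (1 - w)) / (R (n + 1) - R n * (1 - w)) : ℂ) := by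
    intro n
    induction n with
    | zero => intro w _; simp [hP, hR, sol, app]
    | succ n ih =>
      intro w hw
      obtain ⟨h1, h2, h3⟩ := step n hw
      obtain ⟨h4, h5⟩ := ih _ h2
      have e : ∀ x y : ℂ, (2 - be 6 n) * x - 1 * y - x * (1 - w) = (1 + (w - be 6 n)) *
          (x - y * (1 - (w - be 6 n) / (1 + (w - be 6 n)))) := fun x y => by
        field_simp
        ring
      rw [app, h3, h5, hP2, hR2, e, e, mul_div_mul_left _ _ h1]
      exact ⟨mul_ne_zero h1 h4, rfl⟩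
  have k1 : ∀ n, R (n + 1) ≠ 0 := fun n => by simpa using (key n 1 inv_one).1
  have k2 : ∀ n, app (fun n => I * (2 - be 6 n)) n (0 : ℂ) = (P (n + 1) / R (n + 1) : ℂ) :=
    fun n => by simpa using (key n 1 inv_one).2
  simp only [k2] at hL
  refine nolim P R (fun n => 2 - be 6 n) (fun _ => 1) (C := 6) (by norm_num) hP2 hR2
    (fun _ => by simp) (by simp [hP, hR, sol]) k1 (fun n x y => ?_) (fun n x y => ?_) L
    (isOpenEmbedding_coe.isInducing.tendsto_nhds_iff.2 hL)
  · rw [show (2 - be 6 n) * x - 1 * y - 2 * x + y + (r n ^ 4 : ℝ) * x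
      = (r n ^ 4 : ℝ) * x - be 6 n * x by ring, be_sub (by norm_num)]
    have := r_pos n
    have : 0 ≤ r n ^ 3 * ‖x - y‖ := by positivity
    linarith
  · rw [show (2 - be 6 n) * x - 1 * y - 2 * x + y = -(be 6 n * x) by ring, norm_neg, norm_mul]
    have := r_pos n
    exact mul_le_mul (be_norm (by norm_num) (by norm_num) n) (by linarith [norm_nonneg y])
      (norm_nonneg _) (by positivity)

end Pool.Agent.Results.MP_e522d8_an.TypeB
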